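import Mathlib
import Pool.Agent.V11301.TupleGF2

/-!
`∑_λ (1 + λ_1) C(λ) u(λ) = 2^n` over non-increasing `n`-tuples with sum `n`.
-/

namespace Pool.Agent.Results.MP_62fa17_nt.SumIsTwoPow

open Finset

/-- `ent l i` is the part `λ_{i+1}` of the tuple `l = (λ_1, ..., λ_n)`, and `0` for `i ≥ n`. -/
def ent {n : ℕ} (l : Fin n → ℕ) (i : ℕ) : ℕ := if h : i < n then l ⟨i, h⟩ else 0

/-- `Lam n`: the non-increasing `n`-tuples of natural numbers with sum `n`. -/
def Lam (n : ℕ) : Finset (Fin n → ℕ) :=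
  (Finset.Nat.antidiagonalTuple n n).filter (fun l => ∀ i j : Fin n, i ≤ j → l j ≤ l i)

/-- `C(λ) = ∏_{i=1}^{n} binom(λ_i, λ_{i+1})`. -/
def Cbin {n : ℕ} (l : Fin n → ℕ) : ℕ := ∏ i ∈ range n, (ent l i).choose (ent l (i + 1))

/-- `a_1 = 1` and `a_i = 2 i - 3` for `i ≥ 2`. -/
def a (i : ℕ) : ℚ := if i = 1 then 1 else 2 * (i : ℚ) - 3

/-- `u(λ) = ∏_{i=1}^{n} (a_i / i) ^ λ_i`. -/
def u {n : ℕ} (l : Fin n → ℕ) : ℚ :=
  ∏ i ∈ range n, (a (i + 1) / ((i : ℚ) + 1)) ^ ent l i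

/-- `A_n = ∑_{λ} (1 + λ_1) C(λ) u(λ)`. -/
def A (n : ℕ) : ℚ := ∑ l ∈ Lam n, (1 + (ent l 0 : ℚ)) * (Cbin l : ℚ) * u l

theorem ent_eq {n : ℕ} (l : Fin n → ℕ) (i : ℕ) : ent l i = Pool.Agent.V11301.TG.ext l i := rfl

theorem anti_of_C {n : ℕ} (l : Fin n → ℕ) (h : Cbin l ≠ 0) : ∀ i j : Fin n, i ≤ j → l j ≤ l i := by
  have h1 : ∀ i : ℕ, i < n → ent l (i + 1) ≤ ent l i := by
    intro i hi
    by_contra hcon
    push Not at hcon
    apply h
    unfold Cbin
    apply Finset.prod_eq_zero (mem_range.mpr hi)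
    exact Nat.choose_eq_zero_of_lt hcon
  have h2 : ∀ d i : ℕ, i + d < n → ent l (i + d) ≤ ent l i := by
    intro d
    induction d with
    | zero => intro i _; exact le_rfl
    | succ d ih =>
      intro i hi
      exact (h1 (i + d) (by omega)).trans (ih i (by omega))
  intro i j hij
  have h3 := h2 (j.val - i.val) i.val (by
    have := j.isLt; have : i.val ≤ j.val := hij; omega)
  have e : i.val + (j.val - i.val) = j.val := by
    have : i.val ≤ j.val := hij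
    omega
  rw [e] at h3
  unfold ent at h3
  rw [dif_pos j.isLt, dif_pos i.isLt] at h3
  exact h3

theorem sum_Lam (n : ℕ) (f : (Fin n → ℕ) → ℚ) :
    ∑ l ∈ Lam n, f l * (Cbin l : ℚ) =
      ∑ l ∈ Finset.Nat.antidiagonalTuple n n, f l * (Cbin l : ℚ) := by
  unfold Lam
  apply Finset.sum_subset (Finset.filter_subset _ _)
  intro l hl hn
  have : Cbin l = 0 := by
    by_contra hcon
    exact hn (Finset.mem_filter.mpr ⟨hl, anti_of_C l hcon⟩)
  rw [this]; simp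

theorem P_eq {n : ℕ} (l : Fin n → ℕ) :
    Pool.Agent.V11301.TG.P n Pool.Agent.V11301.TG.r1 l = (Cbin l : ℚ) * u l := by
  unfold Pool.Agent.V11301.TG.P Cbin u
  rw [prod_mul_distrib]
  push_cast
  congr 1
  apply prod_congr rfl
  intro i _
  congr 1
  unfold Pool.Agent.V11301.TG.r1 a
  by_cases h : i = 0
  · subst h; simp
  · rw [if_neg h, if_neg (by omega)]
    congr 1
    push_cast
    ring

/-- For every integer `n > 1`, `A_n = 2^n`. -/
theorem result : ∀ n : ℕ, 1 < n → A n = 2 ^ n := by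
  intro n hn
  obtain ⟨N, rfl⟩ : ∃ N, n = N + 1 := ⟨n - 1, by omega⟩
  have h1 : A (N + 1) = ∑ l ∈ Finset.Nat.antidiagonalTuple (N + 1) (N + 1),
      (fun a : ℕ => (1 : ℚ) + (a : ℚ)) (Pool.Agent.V11301.TG.ext l 0) *
        Pool.Agent.V11301.TG.P (N + 1) Pool.Agent.V11301.TG.r1 l := by
    have h2 := sum_Lam (N + 1) (fun l => (1 + (ent l 0 : ℚ)) * u l)
    have h3 : A (N + 1) = ∑ l ∈ Lam (N + 1), (1 + (ent l 0 : ℚ)) * u l * (Cbin l : ℚ) := by
      unfold A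
      apply sum_congr rfl
      intro l _
      ring
    rw [h3, h2]
    apply sum_congr rfl
    intro l _
    rw [P_eq]
    simp only [ent_eq]
    ring
  rw [h1.trans (Pool.Agent.V11301.TG.full_sum N (N + 1) Pool.Agent.V11301.TG.r1
    (fun a : ℕ => (1 : ℚ) + (a : ℚ)))]
  have h4 : ∀ m ∈ range (N + 1 + 1),
      (fun a : ℕ => (1 : ℚ) + (a : ℚ)) m *
        PowerSeries.coeff (N + 1) (Pool.Agent.V11301.TG.Q (N + 1) Pool.Agent.V11301.TG.r1 ^ m) =
      ((1 : ℚ) + (m : ℚ)) *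
        PowerSeries.coeff (N + 1) (Pool.Agent.V11301.TG.W Pool.Agent.V11301.TG.r1 ^ m) := by
    intro m _
    rw [Pool.Agent.V11301.TG.coeff_Q_pow (N + 1) (N + 1) m le_rfl]
  rw [sum_congr rfl h4]
  have hZ : (1 - Pool.Agent.V11301.TG.W Pool.Agent.V11301.TG.r1) ^ 2 *
      (PowerSeries.mk fun k => (2 : ℚ) ^ k) = 1 := by
    rw [Pool.Agent.V11301.TG.sq1]
    ext k
    have e : (1 - 2 * (PowerSeries.X : PowerSeries ℚ)) * (PowerSeries.mk fun k => (2 : ℚ) ^ k) =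
        (PowerSeries.mk fun k => (2 : ℚ) ^ k) -
          PowerSeries.X * (PowerSeries.C (2 : ℚ) * (PowerSeries.mk fun k => (2 : ℚ) ^ k)) := by
      have : (2 : PowerSeries ℚ) = PowerSeries.C (2 : ℚ) := by rw [map_ofNat]
      rw [this]; ring
    rw [e, map_sub, PowerSeries.coeff_mk, PowerSeries.coeff_one]
    cases k with
    | zero => simp
    | succ k =>
      rw [PowerSeries.coeff_succ_X_mul, PowerSeries.coeff_C_mul, PowerSeries.coeff_mk,
        if_neg (by omega), pow_succ]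
      ring
  rw [Pool.Agent.V11301.TG.key_eval _ _ (Pool.Agent.V11301.TG.W_zero _) hZ, PowerSeries.coeff_mk]

end Pool.Agent.Results.MP_62fa17_nt.SumIsTwoPow
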