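import Mathlib
import Pool.Agent.V11301.TupleGF2

/-!
`∑_λ (-1)^(1+λ_1) (1 + λ_1) C(λ) v(λ) = 0` over non-increasing `n`-tuples with sum `n > 1`.
-/

namespace Pool.Agent.Results.MP_62fa17_nt.SumIsZero

open Finset

/-- `ent l i` is the part `λ_{i+1}` of the tuple `l = (λ_1, ..., λ_n)`, and `0` for `i ≥ n`. -/
def ent {n : ℕ} (l : Fin n → ℕ) (i : ℕ) : ℕ := if h : i < n then l ⟨i, h⟩ else 0

/-- `Lam n`: the non-increasing `n`-tuples of natural numbers with sum `n`. -/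
def Lam (n : ℕ) : Finset (Fin n → ℕ) :=
  (Finset.Nat.antidiagonalTuple n n).filter (fun l => ∀ i j : Fin n, i ≤ j → l j ≤ l i)

/-- `C(λ) = ∏_{i=1}^{n} binom(λ_i, λ_{i+1})`. -/
def Cbin {n : ℕ} (l : Fin n → ℕ) : ℕ := ∏ i ∈ range n, (ent l i).choose (ent l (i + 1))

/-- `v(λ) = ∏_{i=1}^{n} ((2 i - 1) / i) ^ λ_i`. -/
def v {n : ℕ} (l : Fin n → ℕ) : ℚ :=
  ∏ i ∈ range n, ((2 * ((i : ℚ) + 1) - 1) / ((i : ℚ) + 1)) ^ ent l i

/-- `B_n = ∑_{λ} (-1)^(1 + λ_1) (1 + λ_1) C(λ) v(λ)`. -/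
def B (n : ℕ) : ℚ :=
  ∑ l ∈ Lam n, (-1 : ℚ) ^ (1 + ent l 0) * (1 + (ent l 0 : ℚ)) * (Cbin l : ℚ) * v l

theorem ent_eq {n : ℕ} (l : Fin n → ℕ) (i : ℕ) : ent l i = Pool.Agent.V11301.TG.ext l i := rfl

theorem anti_of_C {n : ℕ} (l : Fin n → ℕ) (h : Cbin l ≠ 0) : ∀ i j : Fin n, i ≤ j → l j ≤ l i := by
  have h1 : ∀ i : ℕ, i < n → ent l (i + 1) ≤ ent l i := by
    intro i hi
    by_contra hcon
    push Not at hcon
    apply h
    unfold Cbin
    apply Finset.prod_eq_zero (mem_range.mpr hi)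
    exact Nat.choose_eq_zero_of_lt hcon
  have h2 : ∀ d i : ℕ, i + d < n → ent l (i + d) ≤ ent l i := by
    intro d
    induction d with
    | zero => intro i _; exact le_rfl
    | succ d ih =>
      intro i hi
      exact (h1 (i + d) (by omega)).trans (ih i (by omega))
  intro i j hij
  have h3 := h2 (j.val - i.val) i.val (by
    have := j.isLt; have : i.val ≤ j.val := hij; omega)
  have e : i.val + (j.val - i.val) = j.val := by
    have : i.val ≤ j.val := hij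
    omega
  rw [e] at h3
  unfold ent at h3
  rw [dif_pos j.isLt, dif_pos i.isLt] at h3
  exact h3

theorem sum_Lam (n : ℕ) (f : (Fin n → ℕ) → ℚ) :
    ∑ l ∈ Lam n, f l * (Cbin l : ℚ) =
      ∑ l ∈ Finset.Nat.antidiagonalTuple n n, f l * (Cbin l : ℚ) := by
  unfold Lam
  apply Finset.sum_subset (Finset.filter_subset _ _)
  intro l hl hn
  have : Cbin l = 0 := by
    by_contra hcon
    exact hn (Finset.mem_filter.mpr ⟨hl, anti_of_C l hcon⟩)
  rw [this]; simp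

theorem P_eq {n : ℕ} (l : Fin n → ℕ) :
    Pool.Agent.V11301.TG.P n Pool.Agent.V11301.TG.r2 l = (Cbin l : ℚ) * v l := by
  unfold Pool.Agent.V11301.TG.P Cbin v
  rw [prod_mul_distrib]
  push_cast
  congr 1
  apply prod_congr rfl
  intro i _
  congr 1
  unfold Pool.Agent.V11301.TG.r2
  congr 1
  ring

/-- For every integer `n > 1`, `B_n = 0`. -/
theorem result : ∀ n : ℕ, 1 < n → B n = 0 := by
  intro n hn
  obtain ⟨N, rfl⟩ : ∃ N, n = N + 1 := ⟨n - 1, by omega⟩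
  have h1 : B (N + 1) = ∑ l ∈ Finset.Nat.antidiagonalTuple (N + 1) (N + 1),
      (fun a : ℕ => (-1 : ℚ) ^ (1 + a) * ((1 : ℚ) + (a : ℚ))) (Pool.Agent.V11301.TG.ext l 0) *
        Pool.Agent.V11301.TG.P (N + 1) Pool.Agent.V11301.TG.r2 l := by
    have h2 := sum_Lam (N + 1)
      (fun l => (-1 : ℚ) ^ (1 + ent l 0) * (1 + (ent l 0 : ℚ)) * v l)
    have h3 : B (N + 1) = ∑ l ∈ Lam (N + 1),
        (-1 : ℚ) ^ (1 + ent l 0) * (1 + (ent l 0 : ℚ)) * v l * (Cbin l : ℚ) := by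
      unfold B
      apply sum_congr rfl
      intro l _
      ring
    rw [h3, h2]
    apply sum_congr rfl
    intro l _
    rw [P_eq]
    simp only [ent_eq]
    ring
  rw [h1.trans (Pool.Agent.V11301.TG.full_sum N (N + 1) Pool.Agent.V11301.TG.r2
    (fun a : ℕ => (-1 : ℚ) ^ (1 + a) * ((1 : ℚ) + (a : ℚ))))]
  have h4 : ∀ m ∈ range (N + 1 + 1),
      (fun a : ℕ => (-1 : ℚ) ^ (1 + a) * ((1 : ℚ) + (a : ℚ))) m *
        PowerSeries.coeff (N + 1) (Pool.Agent.V11301.TG.Q (N + 1) Pool.Agent.V11301.TG.r2 ^ m) =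
      -(((1 : ℚ) + (m : ℚ)) *
        PowerSeries.coeff (N + 1) ((-Pool.Agent.V11301.TG.W Pool.Agent.V11301.TG.r2) ^ m)) := by
    intro m _
    rw [Pool.Agent.V11301.TG.coeff_Q_pow (N + 1) (N + 1) m le_rfl]
    have e : (-Pool.Agent.V11301.TG.W Pool.Agent.V11301.TG.r2) ^ m =
        PowerSeries.C ((-1 : ℚ) ^ m) * Pool.Agent.V11301.TG.W Pool.Agent.V11301.TG.r2 ^ m := by
      rw [neg_pow, map_pow, map_neg, map_one]
    rw [e, PowerSeries.coeff_C_mul]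
    show (-1 : ℚ) ^ (1 + m) * ((1 : ℚ) + (m : ℚ)) * _ = _
    rw [pow_add, pow_one]
    ring
  rw [sum_congr rfl h4, Finset.sum_neg_distrib]
  have hZ : (1 - (-Pool.Agent.V11301.TG.W Pool.Agent.V11301.TG.r2)) ^ 2 *
      (1 - 2 * (PowerSeries.X : PowerSeries ℚ)) = 1 := by
    rw [sub_neg_eq_add]
    exact Pool.Agent.V11301.TG.sq2
  rw [Pool.Agent.V11301.TG.key_eval _ _ (by
    rw [map_neg, Pool.Agent.V11301.TG.W_zero, neg_zero]) hZ]
  have e2 : (2 : PowerSeries ℚ) * PowerSeries.X = PowerSeries.C (2 : ℚ) * PowerSeries.X := by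
    rw [map_ofNat]
  rw [map_sub, e2, PowerSeries.coeff_one, PowerSeries.coeff_C_mul, PowerSeries.coeff_X,
    if_neg (by omega), if_neg (by omega)]
  norm_num

end Pool.Agent.Results.MP_62fa17_nt.SumIsZero
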